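import Pool.Agent.Helper29.SH.Goals

/-!
# Packet SH-C1
-/

set_option autoImplicit false

namespace Pool.Agent.Helper73.SH

open Subgroup Pool.H83Shunkov Pool.Agent.Helper29.SH

theorem t_C1 : S_QMUL → S_OMG → S_C1A → S_C1 := by
  intro hQM hOM hCA G _ a F p q hs hq hinf
  let Q : Subgroup G :=
    { carrier := {x | Qel a F q x}
      mul_mem' := fun {x y} hx hy => hQM G a F p q hs hq x y hx hy
      one_mem' := by
        refine ⟨⊥, bot_le, by simp, ?_, IsPGroup.of_bot, one_mem _⟩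
        intro k hk
        rw [mem_bot] at hk
        rw [hk, mem_bot]
        group
      inv_mem' := by
        intro x hx
        obtain ⟨R, h1, h2, h3, h4, h5⟩ := hx
        exact ⟨R, h1, h2, h3, h4, inv_mem h5⟩ }
  have hmem : ∀ x, x ∈ Q ↔ Qel a F q x := fun x => Iff.rfl
  have hQF : Q ≤ F := by
    rintro x ⟨R, h1, h2, h3, h4, h5⟩
    exact h1 h5
  have hQinv : Inv a Q := by
    rintro x ⟨R, h1, h2, h3, h4, h5⟩
    exact ⟨R, h1, h2, h3, h4, h3 x h5⟩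
  have hQinf : (Q : Set G).Infinite := hinf
  have hQp : ∀ x ∈ Q, ∃ n : ℕ, x ^ q ^ n = 1 := by
    rintro x ⟨R, h1, h2, h3, h4, h5⟩
    obtain ⟨n, hn⟩ := h4 ⟨x, h5⟩
    exact ⟨n, congrArg Subtype.val hn⟩
  obtain ⟨x, hxQ, hx1⟩ : ∃ x ∈ Q, x ≠ 1 := by
    obtain ⟨x, hx, hx1⟩ := hQinf.exists_notMem_finset {1}
    exact ⟨x, hx, by simpa using hx1⟩
  obtain ⟨R, h1, h2, h3, h4, h5⟩ := hxQ
  have hRb : R ≠ ⊥ := by
    intro h
    rw [h, mem_bot] at h5
    exact hx1 h5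
  obtain ⟨V, hVR, hVb, hVinv, hVq, hVc⟩ := hOM G a R q hq h2 h3 h4 hRb
  have hRQ : R ≤ Q := fun y hy => ⟨R, h1, h2, h3, h4, hy⟩
  have hVfin : (V : Set G).Finite := h2.subset hVR
  by_cases hLF : IsLocFin Q
  · exact Or.inl ⟨Q, hQF, hQinv, hQinf, hLF⟩
  right
  refine ⟨V, hVR.trans h1, hVb, hVfin, hVinv, ?_⟩
  by_contra hfin
  rw [Set.not_infinite] at hfin
  obtain ⟨N, hN, hSN, hNlf⟩ := hs.sep ((Cen F V : Set G) \ {1}) (hfin.subset Set.sdiff_subset) (by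
    rintro s ⟨hs1, hs2⟩
    exact ⟨hs1.1, by simpa using hs2⟩)
  have hQN : Q ⊓ N ≠ ⊥ := by
    intro hb
    apply hLF
    let f : Q →* G ⧸ N := (QuotientGroup.mk' N).comp Q.subtype
    have hf : Function.Injective f := by
      rw [injective_iff_map_eq_one]
      intro y hy
      have h6 : (y : G) ∈ N := by
        have : QuotientGroup.mk' N (y : G) = 1 := hy
        simpa using this
      have h7 : (y : G) ∈ Q ⊓ N := ⟨y.2, h6⟩
      rw [hb, mem_bot] at h7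
      exact Subtype.ext h7
    have h8 := (hNlf.comap_of_injective f hf).map Q.subtype
    refine h8.mono ?_
    intro y hy
    exact ⟨⟨y, hy⟩, ⟨y, hQF hy, rfl⟩, rfl⟩
  obtain ⟨z, hz, hz1, hzV⟩ := hCA G Q N V q hq hQp (fun x hx g hg hxo =>
    hs.pair x (hQF hx) g (hQF hg) (hxo ▸ hq)) (hVR.trans hRQ) hVfin hVq hVc hQN
  have hzC : z ∈ Cen F V := by
    refine mem_inf.2 ⟨hQF hz.1, ?_⟩
    rw [mem_centralizer_iff]
    intro v hv
    exact (hzV v hv).symm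
  exact hSN z ⟨hzC, by simpa using hz1⟩ hz.2

end Pool.Agent.Helper73.SH
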